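import Pool.Graph.R_seed8.Results.MP_c02c06_co.MaxMult

/-!
# The maximal multiplicity in the almost Golomb sequence of order `r` is Golomb's `G (r - 1)`
-/

set_option autoImplicit false
set_option linter.unusedVariables false

open Finset

namespace Pool.Agent.Results.MP_c02c06_co.GolombValue

open Pool.Agent.Results.MP_c02c06_co.MaxMult (IsSolution IsAlmostGolomb N M alm alm0 alm1 alm2 alm3
  alm_step' alm_mono alm_le alm_le' alm_step alm_pos B F B_succ B3 F1 F2 F3 F_ge gc N_eq N_top)

/-- `G` is Golomb's sequence: positive integers `G 1 ≤ G 2 ≤ ⋯` such that every `n ≥ 1` occurs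
exactly `G n` times (indexed from `1`, and `G 0 = 0`). -/
structure IsGolomb (G : ℕ → ℕ) : Prop where
  zero : G 0 = 0
  pos : ∀ n, 1 ≤ n → 1 ≤ G n
  mono : ∀ n, 1 ≤ n → G n ≤ G (n + 1)
  count : ∀ n, 1 ≤ n → N G n = (G n : ℕ∞)

/-! ### Counting in Golomb's sequence -/

/-- partial sums -/
def S (G : ℕ → ℕ) (v : ℕ) : ℕ := ∑ j ∈ range v, G (j + 1)

theorem IsGolomb.monotone {G : ℕ → ℕ} (hG : IsGolomb G) : Monotone G := by
  apply monotone_nat_of_le_succ
  intro n
  rcases Nat.eq_zero_or_pos n with rfl | h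
  · rw [hG.zero]; exact Nat.zero_le _
  · exact hG.mono n h

theorem encard_le {G : ℕ → ℕ} (hG : IsGolomb G) (v : ℕ) :
    {i | 1 ≤ i ∧ G i ≤ v}.encard = (S G v : ℕ∞) := by
  induction v with
  | zero =>
    have : {i | 1 ≤ i ∧ G i ≤ 0} = (∅ : Set ℕ) := by
      ext i
      simp only [Set.mem_ofPred_eq, Set.mem_empty_iff_false, iff_false, not_and]
      intro h
      have := hG.pos i h
      omega
    rw [this]
    simp [S]
  | succ v ih =>
    have h1 : {i | 1 ≤ i ∧ G i ≤ v + 1} = {i | 1 ≤ i ∧ G i ≤ v} ∪ {i | 1 ≤ i ∧ G i = v + 1} := by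
      ext i
      simp only [Set.mem_ofPred_eq, Set.mem_union]
      omega
    have h2 : Disjoint {i | 1 ≤ i ∧ G i ≤ v} {i | 1 ≤ i ∧ G i = v + 1} := by
      rw [Set.disjoint_left]
      intro i
      simp only [Set.mem_ofPred_eq]
      omega
    have h3 : {i | 1 ≤ i ∧ G i = v + 1}.encard = (G (v + 1) : ℕ∞) := hG.count (v + 1) (by omega)
    rw [h1, Set.encard_union_eq h2, ih, h3]
    unfold S
    rw [Finset.sum_range_succ]
    push_cast
    rfl

theorem le_iff {G : ℕ → ℕ} (hG : IsGolomb G) (v i : ℕ) (hi : 1 ≤ i) : G i ≤ v ↔ i ≤ S G v := by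
  have hm := hG.monotone
  have hc := encard_le hG v
  constructor
  · intro h
    have h1 : (↑(Finset.Icc 1 i) : Set ℕ) ⊆ {i | 1 ≤ i ∧ G i ≤ v} := by
      intro j hj
      rw [Finset.mem_coe, Finset.mem_Icc] at hj
      exact ⟨hj.1, (hm hj.2).trans h⟩
    have h2 := Set.encard_le_encard h1
    rw [hc, Set.encard_coe_eq_coe_finsetCard, Nat.card_Icc] at h2
    have h3 : i + 1 - 1 ≤ S G v := by exact_mod_cast h2
    omega
  · intro h
    by_contra hcon
    have h1 : {i | 1 ≤ i ∧ G i ≤ v} ⊆ (↑(Finset.Icc 1 (i - 1)) : Set ℕ) := by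
      intro j hj
      rw [Finset.mem_coe, Finset.mem_Icc]
      refine ⟨hj.1, ?_⟩
      by_contra hj2
      exact hcon ((hm (by omega : i ≤ j)).trans hj.2)
    have h2 := Set.encard_le_encard h1
    rw [hc, Set.encard_coe_eq_coe_finsetCard, Nat.card_Icc] at h2
    have h3 : S G v ≤ i - 1 + 1 - 1 := by exact_mod_cast h2
    omega

theorem IsGolomb.one {G : ℕ → ℕ} (hG : IsGolomb G) : G 1 = 1 := by
  have h1 := hG.pos 1 le_rfl
  have h2 : 1 ≤ S G 1 := by
    unfold S
    rw [Finset.sum_range_one]
    exact h1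
  have h3 := (le_iff hG 1 1 le_rfl).2 h2
  omega

/-! ### The sums of the almost Golomb sequence below the order -/

theorem B_eq_sum (r v : ℕ) (hv : v ≤ r) : B r v = ∑ j ∈ range v, alm r (j + 1) := by
  unfold B
  have h1 : ∑ i ∈ range r, alm r (v - i) = ∑ i ∈ range v, alm r (v - i) := by
    symm
    apply Finset.sum_subset
    · intro i hi
      rw [Finset.mem_range] at hi ⊢
      omega
    · intro i _ hi
      rw [Finset.mem_range] at hi
      have : v - i = 0 := by omega
      rw [this, alm0]
  rw [h1, ← Finset.sum_range_reflect]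
  apply Finset.sum_congr rfl
  intro j hj
  rw [Finset.mem_range] at hj
  congr 1
  omega

/-- The comparison: below the value `r` the two sequences agree up to a shift. -/
theorem alm_eq {G : ℕ → ℕ} (hG : IsGolomb G) (r : ℕ) (hr : 3 ≤ r) :
    ∀ n, 3 ≤ n → alm r n < r → alm r n = G (n - 1) := by
  intro n
  induction n using Nat.strong_induction_on with
  | _ n ih =>
    intro hn hlt
    -- the key equivalence
    have key : ∀ v, 2 ≤ v → v + 1 < n → v + 1 ≤ r → (G (n - 1) ≤ v ↔ alm r n ≤ v) := by
      intro v hv hvn hvr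
      have hS : S G v + 2 = B r (v + 1) := by
        rw [B_eq_sum r (v + 1) hvr]
        unfold S
        obtain ⟨w, rfl⟩ := Nat.exists_eq_add_of_le' (by omega : 1 ≤ v)
        rw [Finset.sum_range_succ', Finset.sum_range_succ' _ (w + 1),
          Finset.sum_range_succ' _ w]
        have h1 : ∀ j ∈ range w, G (j + 1 + 1) = alm r (j + 1 + 1 + 1) := by
          intro j hj
          rw [Finset.mem_range] at hj
          have h2 : alm r (j + 1 + 1 + 1) < r :=
            lt_of_le_of_lt (alm_mono r (by omega)) hlt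
          have h3 := ih (j + 1 + 1 + 1) (by omega) (by omega) h2
          rw [h3]
          rfl
        rw [Finset.sum_congr rfl h1]
        have h4 : G (0 + 1) = 1 := hG.one
        have h5 : alm r (0 + 1 + 1) = 2 := alm2 r
        have h6 : alm r (0 + 1) = 1 := alm1 r
        rw [h4, h5, h6]
      have h1 := le_iff hG v (n - 1) (by omega)
      have h2 := gc r hr (v + 1) n
      rw [F_ge r (v + 1) (by omega)] at h2
      constructor
      · intro h
        have := h1.1 h
        by_contra hc
        have := h2.1 (by omega)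
        omega
      · intro h
        apply h1.2
        by_contra hc
        have := h2.2 (by omega)
        omega
    have hle : alm r n ≤ n - 1 := by
      obtain ⟨m, rfl⟩ := Nat.exists_eq_add_of_le' hn
      have := alm_le r m
      omega
    have h2 : 2 ≤ alm r n := by
      have := alm_mono r hn
      rw [alm3] at this
      exact this
    have hS1 : S G 1 = 1 := by
      unfold S
      rw [Finset.sum_range_one]
      exact hG.one
    have hGn : G (n - 1) ≤ n - 1 := by
      rw [le_iff hG _ _ (by omega)]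
      unfold S
      calc n - 1 = ∑ j ∈ range (n - 1), 1 := by simp
        _ ≤ ∑ j ∈ range (n - 1), G (j + 1) :=
          Finset.sum_le_sum fun j _ => hG.pos (j + 1) (by omega)
    set w := alm r n with hw
    have hup : G (n - 1) ≤ w := by
      by_cases hwn : w + 1 < n
      · exact (key w h2 hwn (by omega)).2 le_rfl
      · omega
    have hlow : w ≤ G (n - 1) := by
      by_contra hc
      by_cases hw2 : w = 2
      · have h3 : G (n - 1) ≤ 1 := by omega
        have h4 := (le_iff hG 1 (n - 1) (by omega)).1 h3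
        omega
      · have h3 : G (n - 1) ≤ w - 1 := by omega
        have h4 := (key (w - 1) (by omega) (by omega) (by omega)).1 h3
        omega
    omega

theorem alm_self {G : ℕ → ℕ} (hG : IsGolomb G) (r : ℕ) (hr : 3 ≤ r) : alm r r = G (r - 1) := by
  apply alm_eq hG r hr r hr
  obtain ⟨m, rfl⟩ := Nat.exists_eq_add_of_le' hr
  have := alm_le (m + 3) m
  omega

/-! ### Existence of Golomb's sequence -/

/-- The initial part of the almost Golomb sequence does not depend on the order. -/
theorem alm_stable (r s : ℕ) (hrs : r ≤ s) : ∀ n, n ≤ r → alm r n = alm s n := by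
  intro n
  induction n using Nat.strong_induction_on with
  | _ n ih =>
    intro hn
    match n, ih, hn with
    | 0, _, _ => rw [alm0, alm0]
    | 1, _, _ => rw [alm1, alm1]
    | 2, _, _ => rw [alm2, alm2]
    | 3, _, _ => rw [alm3, alm3]
    | m + 4, ih, hn =>
      have h1 := ih (m + 3) (by omega) (by omega)
      have hle := alm_le s m
      have e : m + 4 - 1 = m + 3 := by omega
      rw [alm_step r _ (by omega), alm_step s _ (by omega), e, h1]
      have h2 : B r (alm s (m + 3) + 1) = B s (alm s (m + 3) + 1) := by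
        rw [B_eq_sum r _ (by omega), B_eq_sum s _ (by omega)]
        apply Finset.sum_congr rfl
        intro j hj
        rw [Finset.mem_range] at hj
        exact ih (j + 1) (by omega) (by omega)
      rw [h2]

/-- Golomb's sequence, read off from the almost Golomb sequences. -/
def gol (n : ℕ) : ℕ := if n ≤ 1 then n else alm (n + 1) (n + 1)

theorem gol_eq (n R : ℕ) (hn : 2 ≤ n) (hR : n + 1 ≤ R) : gol n = alm R (n + 1) := by
  unfold gol
  rw [if_neg (by omega)]
  exact alm_stable _ _ hR _ le_rfl

theorem gol_count (n : ℕ) (hn : 1 ≤ n) : N gol n = (gol n : ℕ∞) := by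
  have g1 : gol 1 = 1 := rfl
  rcases Nat.lt_or_ge n 3 with h3 | h3
  · interval_cases n
    · have : {i | 1 ≤ i ∧ gol i = 1} = {1} := by
        ext i
        simp only [Set.mem_ofPred_eq, Set.mem_singleton_iff]
        constructor
        · rintro ⟨h1, h2⟩
          by_contra hc
          rw [gol_eq i (i + 1) (by omega) le_rfl] at h2
          have := alm_mono (i + 1) (by omega : 3 ≤ i + 1)
          rw [alm3] at this
          omega
        · rintro rfl
          exact ⟨le_rfl, rfl⟩
      unfold N
      rw [this, g1]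
      simp
    · have : {i | 1 ≤ i ∧ gol i = 2} = (↑(Finset.Icc 2 3) : Set ℕ) := by
        ext i
        simp only [Set.mem_ofPred_eq, Finset.coe_Icc, Set.mem_Icc]
        constructor
        · rintro ⟨h1, h2⟩
          have hi2 : 2 ≤ i := by
            by_contra hc
            have : i = 1 := by omega
            rw [this, g1] at h2
            omega
          refine ⟨hi2, ?_⟩
          rw [gol_eq i (i + 1) hi2 le_rfl] at h2
          have := gc (i + 1) (by omega) 3 (i + 1)
          rw [F3 _ (by omega), h2] at this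
          omega
        · rintro ⟨h1, h2⟩
          refine ⟨by omega, ?_⟩
          rw [gol_eq i (i + 1) h1 le_rfl]
          have := gc (i + 1) (by omega) 3 (i + 1)
          rw [F3 _ (by omega)] at this
          have h5 := alm_mono (i + 1) (by omega : 3 ≤ i + 1)
          rw [alm3] at h5
          omega
      unfold N
      rw [this, Set.encard_coe_eq_coe_finsetCard, Nat.card_Icc, gol_eq 2 3 le_rfl le_rfl, alm3]
  · have hFs : ∀ v R, 3 ≤ v → v ≤ R → F R v = F v v := by
      intro v R hv hR
      rw [F_ge _ _ hv, F_ge _ _ hv, B_eq_sum _ _ hR, B_eq_sum _ _ le_rfl]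
      apply Finset.sum_congr rfl
      intro j hj
      rw [Finset.mem_range] at hj
      exact (alm_stable v R hR (j + 1) (by omega)).symm
    have hle : ∀ v i, 3 ≤ v → 1 ≤ i → (v ≤ gol i ↔ F v v ≤ i + 1) := by
      intro v i hv hi
      have hF3 : 5 ≤ F v v := by
        have h1 := (gc v hv v (F v v)).2 le_rfl
        have h2 := (gc v hv 3 (F v v)).1 (by omega)
        rwa [F3 v hv] at h2
      rcases Nat.lt_or_ge i 2 with h2 | h2
      · have : i = 1 := by omega
        rw [this, g1]
        omega
      · rw [gol_eq i (i + 1 + v) h2 (by omega), gc (i + 1 + v) (by omega) v (i + 1),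
          hFs v (i + 1 + v) hv (by omega)]
    have hF5 : 5 ≤ F n n := by
      have h1 := (gc n h3 n (F n n)).2 le_rfl
      have h2 := (gc n h3 3 (F n n)).1 (by omega)
      rwa [F3 n h3] at h2
    have hset : {i | 1 ≤ i ∧ gol i = n} =
        (↑(Finset.Ico (F n n - 1) (F (n + 1) (n + 1) - 1)) : Set ℕ) := by
      ext i
      simp only [Set.mem_ofPred_eq, Finset.coe_Ico, Set.mem_Ico]
      constructor
      · rintro ⟨h1, h2⟩
        have h4 := (hle n i h3 h1).1 (by omega)
        have h5 : ¬ (F (n + 1) (n + 1) ≤ i + 1) := by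
          rw [← hle (n + 1) i (by omega) h1]
          omega
        omega
      · rintro ⟨h1, h2⟩
        have h0 : 1 ≤ i := by omega
        refine ⟨h0, ?_⟩
        have h4 := (hle n i h3 h0).2 (by omega)
        have h5 : ¬ (n + 1 ≤ gol i) := by
          rw [hle (n + 1) i (by omega) h0]
          omega
        omega
    unfold N
    rw [hset, Set.encard_coe_eq_coe_finsetCard, Nat.card_Ico, gol_eq n (n + 1) (by omega) le_rfl]
    have h6 : F (n + 1) n = F n n := hFs n (n + 1) h3 (by omega)
    have h7 := B_succ (n + 1) n (by omega)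
    rw [← F_ge (n + 1) n h3, ← F_ge (n + 1) (n + 1) (by omega), Nat.sub_self, alm0, h6] at h7
    congr 1
    omega

theorem gol_isGolomb : IsGolomb gol := by
  refine ⟨rfl, ?_, ?_, gol_count⟩
  · intro n hn
    rcases Nat.lt_or_ge n 2 with h | h
    · have : n = 1 := by omega
      rw [this]; exact le_rfl
    · rw [gol_eq n (n + 1) h le_rfl]
      exact alm_pos _ _ (by omega)
  · intro n hn
    rcases Nat.lt_or_ge n 2 with h | h
    · have : n = 1 := by omega
      rw [this]
      have h2 : gol (1 + 1) = alm 3 3 := gol_eq 2 3 le_rfl le_rfl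
      rw [h2, alm3]
      show 1 ≤ 2
      omega
    · rw [gol_eq n (n + 2) h (by omega), gol_eq (n + 1) (n + 2) (by omega) le_rfl]
      exact alm_mono _ (by omega)

theorem golomb_unique {G : ℕ → ℕ} (hG : IsGolomb G) : G = gol := by
  funext n
  match n with
  | 0 => rw [hG.zero]; rfl
  | 1 => rw [hG.one]; rfl
  | n + 2 =>
    rw [gol_eq (n + 2) (n + 3) (by omega) le_rfl]
    exact (alm_self hG (n + 3) (by omega)).symm

/-- Below the order, the multiplicities are the terms of Golomb's sequence. -/
theorem N_lt {G : ℕ → ℕ} (hG : IsGolomb G) (r : ℕ) (hr : 3 ≤ r) (n : ℕ) (hn : 3 ≤ n) (hnr : n < r) :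
    alm r (n + 1) = G n ∧ N (alm r) n = (G n : ℕ∞) := by
  have h1 : alm r (n + 1) < r := by
    obtain ⟨m, rfl⟩ := Nat.exists_eq_add_of_le' hn
    have := alm_le r (m + 1)
    have e : m + 3 + 1 = m + 1 + 3 := by ring
    rw [e]
    omega
  have h2 : alm r (n + 1) = G n := alm_eq hG r hr (n + 1) (by omega) h1
  refine ⟨h2, ?_⟩
  rw [N_eq r hr n (by omega), F_ge r n hn, F_ge r (n + 1) (by omega), ← h2]
  have h3 := B_succ r n (by omega)
  have h4 : n + 1 - r = 0 := by omega
  rw [h4, alm0] at h3
  congr 1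
  omega

/-- **The multiplicities of the almost Golomb sequence of order `r`.** Golomb's sequence `G` exists
and is unique. For every order `r ≥ 3` the almost Golomb sequence `a` exists and is unique,
`a r = G (r - 1)`, and `a n = G (n - 1)` at every `n ≥ 3` where its value is below `r`;
the multiplicity of `n` is `G n` for `3 ≤ n < r`. For `r ≥ 5` the set of all multiplicities is
exactly `{1, 2, …, G (r - 1)}`; in particular `M(r) = N_r(r-1) = G (r - 1)`. -/
theorem result : (∃! G : ℕ → ℕ, IsGolomb G) ∧ ∀ G : ℕ → ℕ, IsGolomb G → ∀ r, 3 ≤ r →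
    (∃! a : ℕ → ℕ, IsAlmostGolomb r a) ∧ ∀ a : ℕ → ℕ, IsAlmostGolomb r a →
      a r = G (r - 1) ∧
      (∀ n, 3 ≤ n → a n < r → a n = G (n - 1)) ∧
      (∀ n, 3 ≤ n → n < r → N a n = (G n : ℕ∞)) ∧
      (5 ≤ r → M a = N a (r - 1) ∧ M a = (G (r - 1) : ℕ∞) ∧
        ∀ k : ℕ∞, (∃ n, 1 ≤ n ∧ N a n = k) ↔ 1 ≤ k ∧ k ≤ (G (r - 1) : ℕ∞)) := by
  refine ⟨⟨gol, gol_isGolomb, fun G hG => golomb_unique hG⟩, ?_⟩
  intro G hG r hr
  refine ⟨⟨alm r, Pool.Agent.Results.MP_c02c06_co.MaxMult.isAlmostGolomb r hr,
    fun a ha => Pool.Agent.Results.MP_c02c06_co.MaxMult.unique r hr a ha⟩, ?_⟩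
  intro a ha
  have hM := fun h5 : 5 ≤ r =>
    ((Pool.Agent.Results.MP_c02c06_co.MaxMult.result r h5).2 a ha).1
  rw [Pool.Agent.Results.MP_c02c06_co.MaxMult.unique r hr a ha] at hM ⊢
  have hM2 : 5 ≤ r → M (alm r) = (G (r - 1) : ℕ∞) := fun h5 => by
    rw [hM h5, N_top r h5, alm_self hG r hr]
  refine ⟨alm_self hG r hr, alm_eq hG r hr, fun n hn hnr => (N_lt hG r hr n hn hnr).2,
    fun h5 => ⟨hM h5, hM2 h5, ?_⟩⟩
  intro k
  constructor
  · rintro ⟨n, hn, rfl⟩
    refine ⟨?_, ?_⟩
    · rw [N_eq r hr n hn]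
      have h1 : F r n < F r (n + 1) := by
        by_contra hc
        have h2 := (gc r hr (n + 1) (F r (n + 1))).2 le_rfl
        have h3 := alm_mono r (not_lt.1 hc)
        rw [Pool.Agent.Results.MP_c02c06_co.MaxMult.alm_F r hr n] at h3
        omega
      have h4 : 1 ≤ F r (n + 1) - F r n := by omega
      exact_mod_cast h4
    · rw [← hM2 h5]
      exact le_iSup_of_le n (le_iSup_of_le hn le_rfl)
  · rintro ⟨h1, h2⟩
    lift k to ℕ using ne_top_of_le_ne_top (ENat.natCast_ne_top _) h2
    have h1' : 1 ≤ k := by exact_mod_cast h1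
    have h2' : k ≤ G (r - 1) := by exact_mod_cast h2
    rw [← alm_self hG r hr] at h2'
    rcases Nat.lt_or_ge k 3 with h3 | h3
    · interval_cases k
      · refine ⟨1, le_rfl, ?_⟩
        rw [N_eq r hr 1 le_rfl]
        show ((F r 2 - F r 1 : ℕ) : ℕ∞) = _
        rw [F1, F2]
      · refine ⟨3, by omega, ?_⟩
        obtain ⟨e1, e2⟩ := N_lt hG r hr 3 le_rfl (by omega)
        rw [e2, ← e1]
        have h6 : ¬ (3 ≤ alm r (3 + 1)) := by
          rw [gc r hr 3 (3 + 1), F3 r hr]
          omega
        have h7 := alm_mono r (by omega : 3 ≤ 3 + 1)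
        rw [alm3] at h7
        have : alm r (3 + 1) = 2 := by omega
        rw [this]
    · have h6 := (gc r hr k r).1 h2'
      have h7 := Pool.Agent.Results.MP_c02c06_co.MaxMult.alm_F r hr k
      have h8 : F r 3 ≤ F r k := (gc r hr 3 (F r k)).1 (by omega)
      rw [F3 r hr] at h8
      refine ⟨F r k - 1, by omega, ?_⟩
      obtain ⟨e1, e2⟩ := N_lt hG r hr (F r k - 1) (by omega) (by omega)
      rw [e2, ← e1, Nat.sub_add_cancel (by omega), h7]

end Pool.Agent.Results.MP_c02c06_co.GolombValue
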